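import Mathlib

namespace Pool.Agent.Results.MP_2af1cc_nt.Squarefree

open Finset

theorem core (A B : Finset ℕ) (hA : ∀ p ∈ A, p.Prime) (hB : ∀ p ∈ B, p.Prime)
    (hd : ∀ p ∈ B, p ∉ A) (P : ℕ) (hP : P ∈ A) (hA' : ∀ p ∈ A, p ≤ P) (hB' : ∀ p ∈ B, p ≤ P)
    (h : (∏ p ∈ A, (p ^ 2 + 1)) * ∏ p ∈ B, p ^ 2 = (∏ p ∈ B, (p ^ 2 + 1)) * ∏ p ∈ A, p ^ 2) :
    False := by
  have hPp := hA P hP
  have h1 : P ^ 2 ∣ (∏ p ∈ A, (p ^ 2 + 1)) * ∏ p ∈ B, p ^ 2 := by
    rw [h]; exact (dvd_prod_of_mem (fun p => p ^ 2) hP).mul_left _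
  have c1 : Nat.Coprime (P ^ 2) (∏ p ∈ B, p ^ 2) := by
    apply Nat.Coprime.prod_right
    intro q hq
    apply Nat.Coprime.pow
    exact (Nat.coprime_primes hPp (hB q hq)).2 (fun e => hd q hq (e ▸ hP))
  have h2 := c1.dvd_of_dvd_mul_right h1
  rw [← prod_filter_mul_prod_filter_not A (fun p => P ∣ p ^ 2 + 1)] at h2
  have c2 : Nat.Coprime (P ^ 2) (∏ p ∈ A.filter (fun p => ¬ P ∣ p ^ 2 + 1), (p ^ 2 + 1)) := by
    apply Nat.Coprime.prod_right
    intro q hq
    apply Nat.Coprime.pow_left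
    exact (Nat.Prime.coprime_iff_not_dvd hPp).2 (mem_filter.1 hq).2
  have h3 := c2.dvd_of_dvd_mul_right h2
  set C := A.filter (fun p => P ∣ p ^ 2 + 1) with hC
  have hlt : ∀ p ∈ C, p < P := by
    intro p hp
    obtain ⟨hp1, hp2⟩ := mem_filter.1 hp
    rcases (hA' p hp1).lt_or_eq with h | h
    · exact h
    · subst h
      have := (Nat.dvd_add_right (dvd_pow_self p two_ne_zero)).1 hp2
      exact absurd (Nat.dvd_one.1 this) hPp.ne_one
  have h2P := hPp.two_le
  have two : ∀ p ∈ C, ∀ q ∈ C, p < q → False := by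
    intro p hp q hq hpq
    have lp := hlt p hp
    have lq := hlt q hq
    obtain ⟨hp1, hp2⟩ := mem_filter.1 hp
    obtain ⟨hq1, hq2⟩ := mem_filter.1 hq
    have pp := hA p hp1
    have qp := hA q hq1
    have p2 := pp.two_le
    obtain ⟨t, rfl⟩ := Nat.exists_eq_add_of_lt hpq
    have e : (p + t + 1) ^ 2 + 1 = (p ^ 2 + 1) + (t + 1) * (2 * p + t + 1) := by ring
    rw [e] at hq2
    have hd2 := (Nat.dvd_add_right hp2).1 hq2
    have hs : P = 2 * p + t + 1 := by
      rcases (Nat.Prime.dvd_mul hPp).1 hd2 with h4 | ⟨c, h4⟩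
      · have := Nat.le_of_dvd (by omega) h4; omega
      · have c1 : c = 1 := by
          rcases c with _ | _ | c
          · omega
          · rfl
          · nlinarith
        subst c1; omega
    have o1 := hPp.eq_two_or_odd
    have o2 := qp.eq_two_or_odd
    have o3 := pp.eq_two_or_odd
    have hp' : p = 2 := by omega
    subst hp'
    have h5 : P = 5 := (Nat.prime_dvd_prime_iff_eq hPp (by norm_num)).1 hp2
    have ht : t = 0 := by omega
    subst ht
    have hB0 : B = ∅ := by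
      apply eq_empty_of_forall_notMem
      intro x hx
      have x1 := hB' x hx
      have x2 := hB x hx
      have x3 := hd x hx
      rw [h5] at x1 hP
      interval_cases x <;> first | exact x3 hp1 | exact x3 hq1 | exact x3 hP | norm_num at x2
    rw [hB0] at h
    simp only [prod_empty, mul_one, one_mul] at h
    have := prod_lt_prod_of_nonempty (s := A) (f := fun p => p ^ 2) (g := fun p => p ^ 2 + 1)
      (fun i hi => pow_pos (hA i hi).pos 2) (fun i _ => Nat.lt_succ_self _) ⟨P, hP⟩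
    omega
  rcases C.eq_empty_or_nonempty with h0 | ⟨p, hp⟩
  · rw [h0, prod_empty] at h3
    have := Nat.le_of_dvd one_pos h3
    nlinarith
  · have : C = {p} := by
      apply eq_singleton_iff_unique_mem.2 ⟨hp, fun q hq => ?_⟩
      rcases lt_trichotomy p q with h | h | h
      · exact (two p hp q hq h).elim
      · exact h.symm
      · exact (two q hq p hp h).elim
    rw [this, prod_singleton] at h3
    have h4 := Nat.le_of_dvd (by positivity) h3
    have h5 := hlt p hp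
    have h6 := (hA p (mem_filter.1 hp).1).two_le
    nlinarith

theorem sig_sq {n : ℕ} (hn : Squarefree n) :
    ∑ d ∈ n.divisors, d ^ 2 = ∏ p ∈ n.primeFactors, (p ^ 2 + 1) := by
  have h := (ArithmeticFunction.isMultiplicative_sigma (k := 2)).map_prod_of_prime n.primeFactors
    (fun a ha => Nat.prime_of_mem_primeFactors ha)
  rw [Nat.prod_primeFactors_of_squarefree hn, ArithmeticFunction.sigma_apply] at h
  rw [h]
  refine prod_congr rfl fun p hp => ?_
  rw [ArithmeticFunction.sigma_apply, (Nat.prime_of_mem_primeFactors hp).sum_divisors]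
  simp

theorem result (m n : ℕ) (hm : Squarefree m) (hn : Squarefree n)
    (h : ((∑ d ∈ m.divisors, d ^ 2 : ℕ) : ℚ) / (m : ℚ) ^ 2 =
      ((∑ d ∈ n.divisors, d ^ 2 : ℕ) : ℚ) / (n : ℚ) ^ 2) : m = n := by
  have m0 : (m : ℚ) ≠ 0 := by exact_mod_cast hm.ne_zero
  have n0 : (n : ℚ) ≠ 0 := by exact_mod_cast hn.ne_zero
  rw [div_eq_div_iff (pow_ne_zero _ m0) (pow_ne_zero _ n0)] at h
  have h' : (∑ d ∈ m.divisors, d ^ 2) * n ^ 2 = (∑ d ∈ n.divisors, d ^ 2) * m ^ 2 := by
    exact_mod_cast h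
  rw [sig_sq hm, sig_sq hn] at h'
  have em := Nat.prod_primeFactors_of_squarefree hm
  have en := Nat.prod_primeFactors_of_squarefree hn
  have pm : ∀ p ∈ m.primeFactors, p.Prime := fun a ha => Nat.prime_of_mem_primeFactors ha
  have pn : ∀ p ∈ n.primeFactors, p.Prime := fun a ha => Nat.prime_of_mem_primeFactors ha
  generalize m.primeFactors = X at *
  generalize n.primeFactors = Y at *
  rw [← em, ← en, ← prod_pow, ← prod_pow] at h'
  rw [← prod_inter_mul_prod_sdiff X Y, ← prod_inter_mul_prod_sdiff X Y (fun p => p ^ 2),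
    ← prod_inter_mul_prod_sdiff Y X, ← prod_inter_mul_prod_sdiff Y X (fun p => p ^ 2 + 1),
    inter_comm Y X] at h'
  have pos : 0 < (∏ p ∈ X ∩ Y, (p ^ 2 + 1)) * ∏ p ∈ X ∩ Y, p ^ 2 :=
    mul_pos (prod_pos fun i _ => Nat.succ_pos _)
      (prod_pos fun i hi => pow_pos (pm i (mem_inter.1 hi).1).pos 2)
  have key : (∏ p ∈ X \ Y, (p ^ 2 + 1)) * ∏ p ∈ Y \ X, p ^ 2 =
      (∏ p ∈ Y \ X, (p ^ 2 + 1)) * ∏ p ∈ X \ Y, p ^ 2 := by
    apply Nat.eq_of_mul_eq_mul_left pos
    linarith [h']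
  rcases ((X \ Y) ∪ (Y \ X)).eq_empty_or_nonempty with h0 | h0
  · rw [union_eq_empty, sdiff_eq_empty_iff_subset, sdiff_eq_empty_iff_subset] at h0
    rw [← em, ← en, Subset.antisymm h0.1 h0.2]
  · exfalso
    obtain ⟨P, hP, hmax⟩ := exists_max_image _ id h0
    have a1 : ∀ p ∈ X \ Y, p.Prime := fun p hp => pm p (mem_sdiff.1 hp).1
    have a2 : ∀ p ∈ Y \ X, p.Prime := fun p hp => pn p (mem_sdiff.1 hp).1
    have b1 : ∀ p ∈ X \ Y, p ≤ P := fun p hp => hmax p (mem_union_left _ hp)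
    have b2 : ∀ p ∈ Y \ X, p ≤ P := fun p hp => hmax p (mem_union_right _ hp)
    rcases mem_union.1 hP with hP | hP
    · exact core _ _ a1 a2 (fun p hp hq => (mem_sdiff.1 hp).2 (mem_sdiff.1 hq).1) P hP b1 b2 key
    · exact core _ _ a2 a1 (fun p hp hq => (mem_sdiff.1 hp).2 (mem_sdiff.1 hq).1) P hP b2 b1
        key.symm

end Pool.Agent.Results.MP_2af1cc_nt.Squarefree
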